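import Pool.Agent.H80.GR.Inst
set_option autoImplicit false

/-!
# Random-Edge on products of simplices; `(5/4 + ε) ^ n` expected steps on abstract cubes

`Vertex K` is the set of the vertices of the product of `n` simplices, the `i`-th one with
`K i ≤ k` vertices; `k = 2` is the `n`-cube.  Let `f` be an injective function on it with exactly
one local maximum on every face.  The first part bounds the expected number of steps of
Random-Edge, the second part the one of every randomised rule with memory which chooses each of the
`d` improving edges with probability at most `ρ / d`.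

The proof.  We follow the walk for a window of polynomial length and weigh the time `j` by
`(1 + 1 / m) ^ j`, where `m` bounds the degrees; the resulting measure `ν` on the vertices is almost
stationary.  The edge-isoperimetric inequality of the Hamming graph in its entropy form shows that
`ν` is spread out: as long as all vertices of the support have at least `l` improving edges,
`∑ ν ^ (1 + s)` is at most `exp (- s * (2 * log k / ((k - 1) * ρ) * l - η * m))`.  Since the walk
increases `f`, it skips in each window about `z ^ (- l)` of the vertices with about `l` improving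
edges, `z = k ^ (- 2 / ((k - 1) * ρ))`.  The sum of `z ^ l` over all vertices, `l` the number of
improving edges, is `∏ i, (1 + z + ⋯ + z ^ (K i - 1))`.
-/

namespace Pool.Agent.Results.MP_4d246d_lc.RandomEdgeUpperBound

open Pool.Agent.H80.GR Finset

theorem result (k : ℕ) (hk : 2 ≤ k) :
    (∀ ε : ℝ, 0 < ε → ∃ C : ℝ, ∀ (n : ℕ) (K : Fin n → ℕ), (∀ i, K i ≤ k) →
      ∀ f : Vertex K → ℝ, Function.Injective f → OneMax f →
      ∀ T : Vertex K → ℝ, RandomEdge f T → ∀ x,
        T x ≤ C * (1 + ε) ^ n *
          ∏ i, ∑ j ∈ range (K i), ((k : ℝ) ^ (-(2 / ((k : ℝ) - 1)))) ^ j) ∧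
    (∀ ρ ε : ℝ, 1 ≤ ρ → 0 < ε → ∃ C : ℝ, ∀ (n : ℕ) (K : Fin n → ℕ), (∀ i, K i ≤ k) →
      ∀ f : Vertex K → ℝ, Function.Injective f → OneMax f →
      ∀ p : List (Vertex K) → Vertex K → ℝ, (∀ h y, 0 ≤ p h y) →
        (∀ x h, ∑ y ∈ improving f x, p (x :: h) y ≤ 1) →
        (∀ x h, ∀ y ∈ improving f x, p (x :: h) y * (improving f x).card ≤ ρ) →
        ∀ (x : Vertex K) (N : ℕ), ∑ t ∈ range N, prob f p (t + 1) [] x ≤
          C * (1 + ε) ^ n *
            ∏ i, ∑ j ∈ range (K i), ((k : ℝ) ^ (-(2 / (((k : ℝ) - 1) * ρ)))) ^ j) :=
  ⟨fun _ hε => edge_bound hk hε, fun _ _ hρ hε => rule_bound hk hρ hε⟩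

end Pool.Agent.Results.MP_4d246d_lc.RandomEdgeUpperBound
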